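import Pool.Agent.D0H11.GF.Stm

set_option autoImplicit false

/-! Project GF, module 2 PAIR2. -/

namespace Pool.Agent.D0H70.GF

open MeasureTheory Set Pool.Agent.D0H11.GF

/-- the affine map -/
def aff (α₁ β₁ γ₁ α₂ β₂ γ₂ : ℝ) (p : ℝ × ℝ) : ℝ × ℝ :=
  (α₁ * p.1 + β₁ * p.2 + γ₁, α₂ * p.1 + β₂ * p.2 + γ₂)

/-- its linear part -/
noncomputable def lin (α₁ β₁ α₂ β₂ : ℝ) : (ℝ × ℝ) →L[ℝ] (ℝ × ℝ) :=
  LinearMap.toContinuousLinearMap
    (Matrix.toLin (Module.Basis.finTwoProd ℝ) (Module.Basis.finTwoProd ℝ) !![α₁, β₁; α₂, β₂])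

theorem lin_apply (α₁ β₁ α₂ β₂ : ℝ) (p : ℝ × ℝ) :
    lin α₁ β₁ α₂ β₂ p = (α₁ * p.1 + β₁ * p.2, α₂ * p.1 + β₂ * p.2) := by
  obtain ⟨x, y⟩ := p
  simp [lin, Matrix.toLin_finTwoProd_apply]

theorem lin_det (α₁ β₁ α₂ β₂ : ℝ) : (lin α₁ β₁ α₂ β₂).det = α₁ * β₂ - β₁ * α₂ := by
  unfold lin
  rw [LinearMap.det_toContinuousLinearMap, LinearMap.det_toLin, Matrix.det_fin_two_of]

theorem aff_fderiv (α₁ β₁ γ₁ α₂ β₂ γ₂ : ℝ) (p : ℝ × ℝ) :
    HasFDerivAt (aff α₁ β₁ γ₁ α₂ β₂ γ₂) (lin α₁ β₁ α₂ β₂) p := by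
  have h : aff α₁ β₁ γ₁ α₂ β₂ γ₂ = fun q => lin α₁ β₁ α₂ β₂ q + (γ₁, γ₂) := by
    funext q
    rw [lin_apply]
    rfl
  rw [h]
  exact (lin α₁ β₁ α₂ β₂).hasFDerivAt.add_const _

theorem aff_inj (α₁ β₁ γ₁ α₂ β₂ γ₂ : ℝ) (hδ : α₁ * β₂ - α₂ * β₁ ≠ 0) :
    Function.Injective (aff α₁ β₁ γ₁ α₂ β₂ γ₂) := by
  rintro ⟨s, t⟩ ⟨s', t'⟩ h
  simp only [aff, Prod.mk.injEq] at h
  obtain ⟨h1, h2⟩ := h
  have h3 : (α₁ * β₂ - α₂ * β₁) * (s - s') = 0 := by linear_combination β₂ * h1 - β₁ * h2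
  have h4 : (α₁ * β₂ - α₂ * β₁) * (t - t') = 0 := by linear_combination α₁ * h2 - α₂ * h1
  rcases mul_eq_zero.1 h3 with h5 | h5
  · exact absurd h5 hδ
  · rcases mul_eq_zero.1 h4 with h6 | h6
    · exact absurd h6 hδ
    · rw [sub_eq_zero] at h5 h6
      rw [h5, h6]

/-- the square -/
def sq (K : ℝ) : Set (ℝ × ℝ) := Icc (-K) K ×ˢ Icc (-K) K

theorem mem_sq {K : ℝ} {p : ℝ × ℝ} : p ∈ sq K ↔ |p.1| ≤ K ∧ |p.2| ≤ K := by
  rw [sq, mem_prod, mem_Icc, mem_Icc, abs_le, abs_le]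

theorem slice_cpt (K α β γ α' β' γ' u : ℝ) :
    ∃ y₁ y₂ : ℝ, {u' : ℝ | (u, u') ∈ aff α β γ α' β' γ' '' sq K} = Icc y₁ y₂ := by
  have h1 : {u' : ℝ | (u, u') ∈ aff α β γ α' β' γ' '' sq K} =
      (fun p : ℝ × ℝ => α' * p.1 + β' * p.2 + γ') '' (sq K ∩ {p | α * p.1 + β * p.2 + γ = u}) := by
    ext u'
    constructor
    · rintro ⟨p, hp, hpu⟩
      simp only [aff, Prod.mk.injEq] at hpu
      exact ⟨p, ⟨hp, hpu.1⟩, hpu.2⟩
    · rintro ⟨p, ⟨hp, hpu⟩, hpu'⟩
      refine ⟨p, hp, ?_⟩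
      simp only [aff, Prod.mk.injEq]
      exact ⟨hpu, hpu'⟩
  rw [h1]
  have hc : Convex ℝ (sq K ∩ {p : ℝ × ℝ | α * p.1 + β * p.2 + γ = u}) := by
    refine Convex.inter ((convex_Icc _ _).prod (convex_Icc _ _)) ?_
    intro p hp q hq a b _ _ hab
    simp only [mem_ofPred_eq] at hp hq ⊢
    simp only [Prod.fst_add, Prod.smul_fst, smul_eq_mul, Prod.snd_add, Prod.smul_snd]
    linear_combination a * hp + b * hq + (u - γ) * hab
  have hk : IsCompact (sq K ∩ {p : ℝ × ℝ | α * p.1 + β * p.2 + γ = u}) := by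
    refine (isCompact_Icc.prod isCompact_Icc).inter_right ?_
    exact isClosed_eq (by fun_prop) continuous_const
  have hcont : Continuous (fun p : ℝ × ℝ => α' * p.1 + β' * p.2 + γ') := by fun_prop
  rcases (sq K ∩ {p : ℝ × ℝ | α * p.1 + β * p.2 + γ = u}).eq_empty_or_nonempty with h | h
  · rw [h, image_empty]
    exact ⟨1, 0, by simp⟩
  · have h2 := (hc.isConnected h).image _ hcont.continuousOn
    exact ⟨_, _, eq_Icc_of_connected_compact h2 (hk.image hcont)⟩

theorem t_PAIR2 : S_PAIR2 := by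
  intro F Y L e K hF hK α₁ β₁ γ₁ α₂ β₂ γ₂ hY hδ
  obtain ⟨hFm, hY0, hL0, he0, hFL, hFe⟩ := hF
  have hδ' : 0 < |α₁ * β₂ - α₂ * β₁| := abs_pos.2 hδ
  set f := aff α₁ β₁ γ₁ α₂ β₂ γ₂ with hf
  have hfc : Continuous f := by
    rw [hf]
    unfold aff
    fun_prop
  have hsqc : IsCompact (sq K) := isCompact_Icc.prod isCompact_Icc
  have himc : IsCompact (f '' sq K) := hsqc.image hfc
  have himm : MeasurableSet (f '' sq K) := himc.isClosed.measurableSet
  have hsqm : MeasurableSet (sq K) := hsqc.isClosed.measurableSet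
  have him : ∀ p ∈ f '' sq K, |p.1| ≤ Y ∧ |p.2| ≤ Y := by
    rintro _ ⟨p, hp, rfl⟩
    rw [mem_sq] at hp
    exact hY p.1 p.2 hp.1 hp.2
  have hGm : Measurable (fun p : ℝ × ℝ => F p.1 * F p.2) :=
    (hFm.comp measurable_fst).mul (hFm.comp measurable_snd)
  have hGb : ∀ p ∈ f '' sq K, ‖F p.1 * F p.2‖ ≤ L * L := by
    intro p hp
    rw [norm_mul, Real.norm_eq_abs, Real.norm_eq_abs]
    exact mul_le_mul (hFL _ (him p hp).1) (hFL _ (him p hp).2) (abs_nonneg _) hL0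
  have hGi : IntegrableOn (fun p : ℝ × ℝ => F p.1 * F p.2) (f '' sq K) volume :=
    Measure.integrableOn_of_bounded himc.measure_lt_top.ne hGm.aestronglyMeasurable
      (ae_restrict_of_forall_mem himm hGb)
  -- the double integral over the square
  have h1 : ∫ t in (-K)..K, ∫ s in (-K)..K, F (α₁ * s + β₁ * t + γ₁) * F (α₂ * s + β₂ * t + γ₂) =
      ∫ p in sq K, F (f p).1 * F (f p).2 := by
    have hi : IntegrableOn (fun p : ℝ × ℝ => F (f p).1 * F (f p).2) (sq K) volume := by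
      refine Measure.integrableOn_of_bounded hsqc.measure_lt_top.ne
        (hGm.comp hfc.measurable).aestronglyMeasurable
        (M := L * L) (ae_restrict_of_forall_mem hsqm fun p hp => hGb (f p) ⟨p, hp, rfl⟩)
    have hi' : IntegrableOn (fun p : ℝ × ℝ => F (f p.swap).1 * F (f p.swap).2)
        (Icc (-K) K ×ˢ Icc (-K) K) (volume.prod volume) := by
      refine Measure.integrableOn_of_bounded hsqc.measure_lt_top.ne
        ((hGm.comp hfc.measurable).comp measurable_swap).aestronglyMeasurable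
        (M := L * L) (ae_restrict_of_forall_mem hsqm fun p hp => hGb (f p.swap) ⟨p.swap, ?_, rfl⟩)
      rw [mem_sq] at hp ⊢
      exact ⟨hp.2, hp.1⟩
    have h2 : ∫ p in sq K, F (f p).1 * F (f p).2 =
        ∫ p in Icc (-K) K ×ˢ Icc (-K) K, F (f p.swap).1 * F (f p.swap).2 ∂(volume.prod volume) := by
      rw [sq, ← Measure.volume_eq_prod]
      have h3 := (Measure.measurePreserving_swap (μ := (volume : Measure ℝ)) (ν := (volume : Measure ℝ))
        ).setIntegral_preimage_emb MeasurableEquiv.prodComm.measurableEmbedding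
        (fun p : ℝ × ℝ => F (f p).1 * F (f p).2) (Icc (-K) K ×ˢ Icc (-K) K)
      rw [← Measure.volume_eq_prod] at h3
      rw [← h3]
      congr 1
      congr 1
      ext p
      simp only [mem_preimage, mem_prod, Prod.fst_swap, Prod.snd_swap, and_comm]
    rw [h2, setIntegral_prod _ hi']
    rw [intervalIntegral.integral_of_le (by linarith), ← integral_Icc_eq_integral_Ioc]
    refine setIntegral_congr_fun measurableSet_Icc fun t _ => ?_
    rw [intervalIntegral.integral_of_le (by linarith), ← integral_Icc_eq_integral_Ioc]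
    rfl
  have h2 : ∫ p in f '' sq K, F p.1 * F p.2 =
      ∫ p in sq K, |α₁ * β₂ - α₂ * β₁| * (F (f p).1 * F (f p).2) := by
    rw [integral_image_eq_integral_abs_det_fderiv_smul volume hsqm
      (fun p _ => (aff_fderiv α₁ β₁ γ₁ α₂ β₂ γ₂ p).hasFDerivWithinAt)
      (aff_inj α₁ β₁ γ₁ α₂ β₂ γ₂ hδ).injOn]
    simp only [lin_det, smul_eq_mul]
    rw [mul_comm β₁ α₂]
  rw [integral_const_mul, ← h1] at h2
  -- the integral over the image
  have h3 : ∫ p in f '' sq K, F p.1 * F p.2 =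
      ∫ u, F u * ∫ u' in {u' : ℝ | (u, u') ∈ f '' sq K}, F u' := by
    rw [← integral_indicator himm, Measure.volume_eq_prod, integral_prod]
    · refine integral_congr_ae (ae_of_all _ fun u => ?_)
      simp only
      rw [← integral_const_mul, ← integral_indicator]
      · refine integral_congr_ae (ae_of_all _ fun u' => ?_)
        simp only [indicator, mem_ofPred_eq]
      · exact himm.preimage measurable_prodMk_left
    · rw [← Measure.volume_eq_prod]
      exact hGi.integrable_indicator himm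
  have h4 : ∀ u : ℝ, ‖F u * ∫ u' in {u' : ℝ | (u, u') ∈ f '' sq K}, F u'‖ ≤
      (Icc (-Y) Y).indicator (fun _ => L * e) u := by
    intro u
    by_cases hu : u ∈ Icc (-Y) Y
    · rw [indicator_of_mem hu, norm_mul, Real.norm_eq_abs, Real.norm_eq_abs]
      refine mul_le_mul (hFL u (abs_le.2 hu)) ?_ (abs_nonneg _) hL0
      obtain ⟨y₁, y₂, hy⟩ := slice_cpt K α₁ β₁ γ₁ α₂ β₂ γ₂ u
      rw [← hf] at hy
      rw [hy]
      rcases le_or_gt y₁ y₂ with h12 | h12
      · have m1 : y₁ ∈ {u' : ℝ | (u, u') ∈ f '' sq K} := by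
          rw [hy]
          exact left_mem_Icc.2 h12
        have m2 : y₂ ∈ {u' : ℝ | (u, u') ∈ f '' sq K} := by
          rw [hy]
          exact right_mem_Icc.2 h12
        have b1 := (abs_le.1 (him _ m1).2).1
        have b2 := (abs_le.1 (him _ m2).2).2
        rw [integral_Icc_eq_integral_Ioc, ← intervalIntegral.integral_of_le h12]
        exact hFe y₁ y₂ b1 h12 b2
      · rw [Icc_eq_empty (not_le.2 h12), setIntegral_empty, abs_zero]
        exact he0
    · have hempty : {u' : ℝ | (u, u') ∈ f '' sq K} = ∅ := by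
        ext u'
        simp only [mem_ofPred_eq, mem_empty_iff_false, iff_false]
        intro h
        exact hu (abs_le.1 (him _ h).1)
      rw [indicator_of_notMem hu, hempty, setIntegral_empty, mul_zero, norm_zero]
  have h5 : |∫ p in f '' sq K, F p.1 * F p.2| ≤ 2 * Y * L * e := by
    rw [h3, ← Real.norm_eq_abs]
    refine (norm_integral_le_of_norm_le ?_ (ae_of_all _ h4)).trans (le_of_eq ?_)
    · exact (integrable_indicator_iff measurableSet_Icc).2
        (integrableOn_const (by simp) )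
    · rw [integral_indicator measurableSet_Icc, setIntegral_const, smul_eq_mul,
        Real.volume_real_Icc_of_le (by linarith)]
      ring
  rw [h2, abs_mul, abs_abs] at h5
  rw [le_div_iff₀ hδ']
  linarith

end Pool.Agent.D0H70.GF
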