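import Pool.Agent.D0H11.GF.Stm

set_option autoImplicit false

/-! Project GF, module 4 L2. -/

namespace Pool.Agent.D0H70.GF

open MeasureTheory Filter Finset Pool.Agent.D0H11.GF

theorem ct_meas (c : ℕ → ℝ) : Measurable (ct c) := by
  unfold ct
  refine Measurable.ite measurableSet_Ici ?_ measurable_const
  exact ((measurable_from_top (f := c)).comp Nat.measurable_floor).sub_const 1

theorem ct_bd (c : ℕ → ℝ) (E : ℕ) (hc : Gr E c) (Y : ℝ) (hY : 0 ≤ Y) (y : ℝ) (hy : |y| ≤ Y) :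
    |ct c y| ≤ 2 * Real.log (Y + 3) ^ E := by
  have h1 : (1 : ℝ) ≤ Real.log (Y + 3) := by
    rw [Real.le_log_iff_exp_le (by linarith)]
    linarith [Real.exp_one_lt_three]
  have h2 : (1 : ℝ) ≤ Real.log (Y + 3) ^ E := one_le_pow₀ h1
  unfold ct
  split_ifs with h
  · have h3 := hc ⌊y⌋₊
    have h4 : Real.log (⌊y⌋₊ + 3) ^ E ≤ Real.log (Y + 3) ^ E := by
      refine pow_le_pow_left₀ (Real.log_nonneg (by
        have : (0 : ℝ) ≤ ⌊y⌋₊ := Nat.cast_nonneg _
        linarith)) ?_ _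
      refine Real.log_le_log (by positivity) ?_
      have h5 := Nat.floor_le h
      have h6 := le_abs_self y
      linarith
    have h5 : |c ⌊y⌋₊ - 1| ≤ |c ⌊y⌋₊| + 1 := by
      have := abs_sub (c ⌊y⌋₊) 1
      rwa [abs_one] at this
    linarith
  · rw [abs_zero]
    positivity

theorem bx_vol (d : ℕ) (K : ℝ) (hK : 0 ≤ K) : (volume : Measure (Fin d → ℝ)).real (bx d K) = (2 * K) ^ d := by
  unfold bx
  rw [Measure.real, Real.volume_Icc_pi_toReal (by
    intro i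
    simp only
    linarith)]
  rw [prod_const, card_univ, Fintype.card_fin]
  congr 1
  ring

theorem bx_meas (d : ℕ) (K : ℝ) : MeasurableSet (bx d K) := measurableSet_Icc

theorem bx_lt (d : ℕ) (K : ℝ) : (volume : Measure (Fin d → ℝ)) (bx d K) < ⊤ :=
  isCompact_Icc.measure_lt_top

theorem mem_bx {d : ℕ} {K : ℝ} {b : Fin d → ℝ} (hb : b ∈ bx d K) (k : Fin d) : |b k| ≤ K :=
  abs_le.2 ⟨hb.1 k, hb.2 k⟩

theorem cont_arg {d : ℕ} (v : Fin d → ℝ) (γ : ℝ) :
    Continuous fun b : Fin d → ℝ => γ + ∑ k, b k * v k := by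
  fun_prop

open Classical in
/-- one pair -/
theorem core (hPD : S_PAIRD) (F : ℝ → ℝ) (Y L e K : ℝ) (hF : Bd F Y L e) (hK : 1 ≤ K) (d : ℕ)
    (v v' : Fin d → ℝ) (γ γ' : ℝ)
    (hb : ∀ b ∈ bx d K, |γ + ∑ k, b k * v k| ≤ Y ∧ |γ' + ∑ k, b k * v' k| ≤ Y) (Z : ℝ) (hZ : 0 < Z) :
    |∫ b in bx d K, F (γ + ∑ k, b k * v k) * F (γ' + ∑ k, b k * v' k)| ≤
      (2 * K) ^ d * ((if ∀ i j : Fin d, |v i * v' j - v j * v' i| ≤ Z then L ^ 2 else 0) +
        2 * Y * L * e / Z) := by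
  have hF' := hF
  obtain ⟨hFm, hY0, hL0, he0, hFL, hFe⟩ := hF'
  have hK0 : 0 < K := by linarith
  have hq : 0 ≤ 2 * Y * L * e := by positivity
  have hq' : 0 ≤ 2 * Y * L * e / Z := by positivity
  have h2K : 0 ≤ (2 * K) ^ d := by positivity
  split_ifs with h
  · have h1 := norm_setIntegral_le_of_norm_le_const (μ := (volume : Measure (Fin d → ℝ)))
      (s := bx d K) (C := L ^ 2)
      (f := fun b => F (γ + ∑ k, b k * v k) * F (γ' + ∑ k, b k * v' k)) (bx_lt d K) (by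
        intro b hb'
        rw [norm_mul, Real.norm_eq_abs, Real.norm_eq_abs, pow_two]
        exact mul_le_mul (hFL _ (hb b hb').1) (hFL _ (hb b hb').2) (abs_nonneg _) hL0)
    rw [bx_vol d K hK0.le, Real.norm_eq_abs] at h1
    have h2 : L ^ 2 * (2 * K) ^ d ≤ (2 * K) ^ d * (L ^ 2 + 2 * Y * L * e / Z) := by
      have := mul_nonneg h2K hq'
      rw [mul_add]
      linarith
    exact h1.trans h2
  · push Not at h
    obtain ⟨i, j, hij⟩ := h
    have hne : i ≠ j := by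
      rintro rfl
      rw [sub_self, abs_zero] at hij
      linarith
    have hm0 : v i * v' j - v j * v' i ≠ 0 := by
      intro h0
      rw [h0, abs_zero] at hij
      linarith
    have h1 := hPD F Y L e K hF hK0 d v v' γ γ' hb i j hne hm0
    refine h1.trans ?_
    rw [zero_add, mul_div_assoc]
    have h2 : (2 * K) ^ (d - 2) ≤ (2 * K) ^ d :=
      pow_le_pow_right₀ (by linarith) (Nat.sub_le _ _)
    have h3 : 2 * Y * L * e / |v i * v' j - v j * v' i| ≤ 2 * Y * L * e / Z :=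
      div_le_div_of_nonneg_left hq hZ hij.le
    exact mul_le_mul h2 h3 (by positivity) h2K

open Classical in
/-- one `n` -/
theorem one_n (hPD : S_PAIRD) {d : ℕ} {ι : Type} (X : Fam d ι) (c : ℕ → ℝ) (n : ℕ)
    (Y L e K : ℝ) (hF : Bd (ct c) Y L e) (hK : 1 ≤ K)
    (hb : ∀ x ∈ X.R n, ∀ b ∈ bx d K, |X.g n x + ∑ k, b k * X.v n x k| ≤ Y)
    (W : ℝ) (hW0 : 0 ≤ W) (hW : ∀ x ∈ X.R n, |X.w n x| ≤ W) (Z : ℝ) (hZ : 0 < Z) :
    IntegrableOn (fun b => Sm X c n b ^ 2) (bx d K) volume ∧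
    ∫ b in bx d K, Sm X c n b ^ 2 ≤ W ^ 2 * (2 * K) ^ d *
      (L ^ 2 * ((((X.R n ×ˢ X.R n).filter fun p => ∀ i j : Fin d,
      |X.v n p.1 i * X.v n p.2 j - X.v n p.1 j * X.v n p.2 i| ≤ Z).card : ℕ) : ℝ) +
      2 * Y * L * e / Z * ((X.R n).card : ℝ) ^ 2) := by
  have hF' := hF
  obtain ⟨hFm, hY0, hL0, he0, hFL, hFe⟩ := hF'
  have hint : ∀ p ∈ X.R n ×ˢ X.R n, IntegrableOn (fun b : Fin d → ℝ =>
      (X.w n p.1 * X.w n p.2) * (ct c (X.g n p.1 + ∑ k, b k * X.v n p.1 k) *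
        ct c (X.g n p.2 + ∑ k, b k * X.v n p.2 k))) (bx d K) volume := by
    intro p hp
    rw [mem_product] at hp
    refine Integrable.const_mul ?_ _
    refine Measure.integrableOn_of_bounded (bx_lt d K).ne ?_ (M := L * L)
      (ae_restrict_of_forall_mem (bx_meas d K) ?_)
    · exact ((hFm.comp (cont_arg _ _).measurable).mul
        (hFm.comp (cont_arg _ _).measurable)).aestronglyMeasurable
    · intro b hb'
      rw [norm_mul, Real.norm_eq_abs, Real.norm_eq_abs]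
      exact mul_le_mul (hFL _ (hb _ hp.1 b hb')) (hFL _ (hb _ hp.2 b hb')) (abs_nonneg _) hL0
  have hexp : ∀ b : Fin d → ℝ, Sm X c n b ^ 2 = ∑ p ∈ X.R n ×ˢ X.R n,
      (X.w n p.1 * X.w n p.2) * (ct c (X.g n p.1 + ∑ k, b k * X.v n p.1 k) *
        ct c (X.g n p.2 + ∑ k, b k * X.v n p.2 k)) := by
    intro b
    rw [Sm, pow_two, sum_mul_sum, sum_product]
    refine sum_congr rfl fun x _ => sum_congr rfl fun y _ => ?_
    ring
  have hexp' : (fun b => Sm X c n b ^ 2) = fun b => ∑ p ∈ X.R n ×ˢ X.R n,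
      (X.w n p.1 * X.w n p.2) * (ct c (X.g n p.1 + ∑ k, b k * X.v n p.1 k) *
        ct c (X.g n p.2 + ∑ k, b k * X.v n p.2 k)) := funext hexp
  refine ⟨?_, ?_⟩
  · rw [hexp']
    exact integrable_finsetSum _ hint
  · rw [hexp', integral_finsetSum _ hint]
    have h1 : ∀ p ∈ X.R n ×ˢ X.R n, ∫ b in bx d K,
        (X.w n p.1 * X.w n p.2) * (ct c (X.g n p.1 + ∑ k, b k * X.v n p.1 k) *
        ct c (X.g n p.2 + ∑ k, b k * X.v n p.2 k)) ≤ W ^ 2 * ((2 * K) ^ d *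
        ((if ∀ i j : Fin d, |X.v n p.1 i * X.v n p.2 j - X.v n p.1 j * X.v n p.2 i| ≤ Z
          then L ^ 2 else 0) + 2 * Y * L * e / Z)) := by
      intro p hp
      rw [mem_product] at hp
      rw [integral_const_mul]
      refine (le_abs_self _).trans ?_
      rw [abs_mul]
      refine mul_le_mul ?_ ?_ (abs_nonneg _) (by positivity)
      · rw [abs_mul, pow_two]
        exact mul_le_mul (hW _ hp.1) (hW _ hp.2) (abs_nonneg _) hW0
      · exact core hPD (ct c) Y L e K hF hK d _ _ _ _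
          (fun b hb' => ⟨hb _ hp.1 b hb', hb _ hp.2 b hb'⟩) Z hZ
    refine (sum_le_sum h1).trans (le_of_eq ?_)
    rw [← mul_sum, ← mul_sum, sum_add_distrib, ← sum_filter, sum_const, sum_const, card_product,
      nsmul_eq_mul, nsmul_eq_mul]
    push_cast
    ring

/-- the final estimate -/
theorem fin_est (d E D A A' : ℕ) (hA' : A' = A + D + 4 * E + 1) (k C0 C1 l N W L Y e Z q S1 S2 : ℝ)
    (hC1 : C1 = (2 * k) ^ d * 2 ^ (2 * E) * (4 * 2 ^ (2 * E) + 16 * C0 ^ 2 * 2 ^ E))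
    (hk : 1 ≤ k) (hC0 : 1 ≤ C0) (hl0 : 0 < l) (hl1 : C1 ≤ l) (hN : 1 ≤ N) (hZ : Z = N ^ 2 / l ^ D)
    (hW0 : 0 ≤ W) (hWle : W ≤ (2 * l) ^ E) (hL0 : 0 ≤ L) (hLle : L ≤ 2 * (2 * l) ^ E) (hY0 : 0 < Y)
    (hY2 : Y ≤ 2 * C0 * N) (he0 : 0 ≤ e) (hele : e ≤ 2 * C0 * N / l ^ A')
    (hq : q = 2 * Y * L * e / Z) (hS1 : 0 ≤ S1) (hM : S1 ≤ N ^ 3 / l ^ (A + 4 * E + 1))
    (hS2 : 0 ≤ S2) (hT : S2 ≤ N ^ 3 * l ^ E) :
    W ^ 2 * (2 * k) ^ d * (L ^ 2 * S1 + q * S2) ≤ N ^ 3 / l ^ A := by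
  have hN0 : 0 < N := by linarith
  have hZ0 : 0 < Z := by
    rw [hZ]
    positivity
  have hqle : q ≤ 2 * (2 * C0 * N) * (2 * (2 * l) ^ E) * (2 * C0 * N / l ^ A') / Z := by
    rw [hq]
    refine div_le_div_of_nonneg_right ?_ hZ0.le
    have h1 : 2 * Y ≤ 2 * (2 * C0 * N) := by linarith
    have h2 : 2 * Y * L ≤ 2 * (2 * C0 * N) * (2 * (2 * l) ^ E) :=
      mul_le_mul h1 hLle hL0 (by positivity)
    exact mul_le_mul h2 hele he0 (by positivity)
  have hq0 : 0 ≤ q := by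
    rw [hq]
    positivity
  have h1 : W ^ 2 * (2 * k) ^ d ≤ ((2 * l) ^ E) ^ 2 * (2 * k) ^ d :=
    mul_le_mul_of_nonneg_right (pow_le_pow_left₀ hW0 hWle 2) (by positivity)
  have h2 : L ^ 2 * S1 ≤ (2 * (2 * l) ^ E) ^ 2 * (N ^ 3 / l ^ (A + 4 * E + 1)) :=
    mul_le_mul (pow_le_pow_left₀ hL0 hLle 2) hM hS1 (by positivity)
  have h3 : q * S2 ≤ 2 * (2 * C0 * N) * (2 * (2 * l) ^ E) * (2 * C0 * N / l ^ A') / Z * (N ^ 3 * l ^ E) :=
    mul_le_mul hqle hT hS2 (by positivity)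
  have h4 : 0 ≤ L ^ 2 * S1 + q * S2 := by positivity
  calc W ^ 2 * (2 * k) ^ d * (L ^ 2 * S1 + q * S2)
      ≤ ((2 * l) ^ E) ^ 2 * (2 * k) ^ d * ((2 * (2 * l) ^ E) ^ 2 * (N ^ 3 / l ^ (A + 4 * E + 1)) +
          2 * (2 * C0 * N) * (2 * (2 * l) ^ E) * (2 * C0 * N / l ^ A') / Z * (N ^ 3 * l ^ E)) :=
        mul_le_mul h1 (add_le_add h2 h3) h4 (by positivity)
    _ = C1 / l * (N ^ 3 / l ^ A) := by
        rw [hC1, hZ, hA']
        field_simp
        ring
    _ ≤ 1 * (N ^ 3 / l ^ A) := by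
        refine mul_le_mul_of_nonneg_right ?_ (by positivity)
        rw [div_le_one hl0]
        exact hl1
    _ = N ^ 3 / l ^ A := one_mul _

theorem t_L2 : S_INT → S_PAIRD → S_L2 := by
  classical
  intro hINT hPD d ι X E hX c hc1 hcE K A hK
  obtain ⟨D, hD⟩ := hX.hM (A + 4 * E + 1)
  set A' : ℕ := A + D + 4 * E + 1 with hA'
  have hKr : (1 : ℝ) ≤ K := by exact_mod_cast hK
  set C0 : ℝ := (E + 1) * (1 + d * K) with hC0
  have hC01 : 1 ≤ C0 := by
    have h1 : (1 : ℝ) ≤ (E : ℝ) + 1 := by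
      have : (0 : ℝ) ≤ E := Nat.cast_nonneg _
      linarith
    have h2 : (1 : ℝ) ≤ 1 + d * K := by
      have : (0 : ℝ) ≤ (d : ℝ) * K := by positivity
      linarith
    calc (1 : ℝ) = 1 * 1 := by ring
      _ ≤ (E + 1) * (1 + d * K) := mul_le_mul h1 h2 (by norm_num) (by linarith)
  set C1 : ℝ := (2 * K) ^ d * 2 ^ (2 * E) * (4 * 2 ^ (2 * E) + 16 * C0 ^ 2 * 2 ^ E) with hC1
  have hlogT : Tendsto (fun N : ℕ => Real.log N) atTop atTop :=
    Real.tendsto_log_atTop.comp tendsto_natCast_atTop_atTop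
  have hYT : Tendsto (fun N : ℕ => C0 * ((N : ℝ) + 1)) atTop atTop := by
    refine Tendsto.const_mul_atTop (by linarith) ?_
    exact tendsto_atTop_add_const_right _ _ tendsto_natCast_atTop_atTop
  filter_upwards [hYT.eventually (hINT c E hc1 hcE A'), hX.hT, hD,
    hlogT.eventually_ge_atTop C1, hlogT.eventually_ge_atTop 1,
    (tendsto_natCast_atTop_atTop (R := ℝ)).eventually_ge_atTop (2 * C0 + 3),
    eventually_ge_atTop 1] with N hI hT hM hl1 hl2 hN1 hN0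
  set Y : ℝ := C0 * ((N : ℝ) + 1) with hY
  set l : ℝ := Real.log N with hl
  have hNr : (1 : ℝ) ≤ N := by exact_mod_cast hN0
  have hl0 : 0 < l := by linarith
  have hYN : (N : ℝ) ≤ Y := by
    rw [hY]
    nlinarith
  have hY0 : 0 < Y := by linarith
  have hY2 : Y ≤ 2 * C0 * N := by
    rw [hY]
    nlinarith
  have hlY : l ≤ Real.log Y := Real.log_le_log (by linarith) hYN
  have hY3 : Y + 3 ≤ (N : ℝ) ^ 2 := by
    have h1 : (2 * C0 + 3) * (N : ℝ) ≤ N * N := mul_le_mul_of_nonneg_right hN1 (by linarith)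
    nlinarith
  have hlY3 : Real.log (Y + 3) ≤ 2 * l := by
    have := Real.log_le_log (by linarith) hY3
    rw [Real.log_pow] at this
    exact_mod_cast this
  have hlY3' : 0 ≤ Real.log (Y + 3) := Real.log_nonneg (by linarith)
  have hlN3 : Real.log ((N : ℝ) + 3) ≤ 2 * l :=
    (Real.log_le_log (by linarith) (by linarith)).trans hlY3
  set L : ℝ := 2 * Real.log (Y + 3) ^ E with hL
  have hL0 : 0 ≤ L := by positivity
  set e : ℝ := Y / Real.log Y ^ A' with he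
  have hlYp : 0 < Real.log Y := by linarith
  have he0 : 0 ≤ e := by positivity
  have hBd : Bd (ct c) Y L e := ⟨ct_meas c, hY0, hL0, he0, fun y hy => ct_bd c E hcE Y hY0.le y hy, hI⟩
  set Z : ℝ := (N : ℝ) ^ 2 / Real.log N ^ D with hZ
  have hZ0 : 0 < Z := by
    rw [hZ, ← hl]
    positivity
  set W : ℝ := Real.log ((N : ℝ) + 3) ^ E with hW
  have hW0 : 0 ≤ W := by
    have : 0 ≤ Real.log ((N : ℝ) + 3) := Real.log_nonneg (by linarith)
    positivity
  have key : ∀ n ∈ Icc 1 N, IntegrableOn (fun b => Sm X c n b ^ 2) (bx d K) volume ∧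
    ∫ b in bx d K, Sm X c n b ^ 2 ≤ W ^ 2 * (2 * K) ^ d *
      (L ^ 2 * ((((X.R n ×ˢ X.R n).filter fun p => ∀ i j : Fin d,
      |X.v n p.1 i * X.v n p.2 j - X.v n p.1 j * X.v n p.2 i| ≤ Z).card : ℕ) : ℝ) +
      2 * Y * L * e / Z * ((X.R n).card : ℝ) ^ 2) := by
    intro n hn
    rw [mem_Icc] at hn
    have hnN : (n : ℝ) ≤ N := by exact_mod_cast hn.2
    refine one_n hPD X c n Y L e K hBd hKr ?_ W hW0 ?_ Z hZ0
    · intro x hx b hb
      have h1 : |∑ k, b k * X.v n x k| ≤ d * (K * (E * n)) := by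
        refine (abs_sum_le_sum_abs _ _).trans ?_
        have h2 : ∀ k ∈ (univ : Finset (Fin d)), |b k * X.v n x k| ≤ K * (E * n) := by
          intro k _
          rw [abs_mul]
          exact mul_le_mul (mem_bx hb k) (hX.hv n x hx k) (abs_nonneg _) (by linarith)
        refine (sum_le_sum h2).trans (le_of_eq ?_)
        rw [sum_const, card_univ, Fintype.card_fin, nsmul_eq_mul]
      have h3 := abs_add_le (X.g n x) (∑ k, b k * X.v n x k)
      have h4 := hX.hg n x hx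
      have h5 : (E : ℝ) * n + d * (K * (E * n)) ≤ Y := by
        have h6 : (E : ℝ) * n + d * (K * (E * n)) = (E * (1 + d * K)) * n := by ring
        rw [h6, hY]
        refine mul_le_mul ?_ (by linarith) (by positivity) (by positivity)
        rw [hC0]
        refine mul_le_mul_of_nonneg_right (by linarith) (by positivity)
      linarith
    · intro x hx
      refine (hX.hw n x hx).trans ?_
      refine pow_le_pow_left₀ (Real.log_nonneg (by
        have : (0 : ℝ) ≤ n := Nat.cast_nonneg _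
        linarith)) ?_ _
      refine Real.log_le_log ?_ (by linarith)
      have : (0 : ℝ) ≤ n := Nat.cast_nonneg _
      linarith
  rw [integral_finsetSum _ fun n hn => (key n hn).1]
  refine (sum_le_sum fun n hn => (key n hn).2).trans ?_
  rw [← mul_sum, sum_add_distrib, ← mul_sum, ← mul_sum]
  have hLle : L ≤ 2 * (2 * l) ^ E := by
    rw [hL]
    exact mul_le_mul_of_nonneg_left (pow_le_pow_left₀ hlY3' hlY3 _) (by norm_num)
  have hWle : W ≤ (2 * l) ^ E := pow_le_pow_left₀ (Real.log_nonneg (by linarith)) hlN3 _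
  have hele : e ≤ 2 * C0 * N / l ^ A' := by
    rw [he]
    exact div_le_div₀ (by positivity) hY2 (by positivity) (pow_le_pow_left₀ hl0.le hlY _)
  exact fin_est d E D A A' hA' K C0 C1 l N W L Y e Z (2 * Y * L * e / Z) _ _ hC1 hKr hC01 hl0 hl1 hNr
    hZ hW0 hWle hL0 hLle hY0 hY2 he0 hele rfl (sum_nonneg fun _ _ => Nat.cast_nonneg _) hM
    (sum_nonneg fun _ _ => sq_nonneg _) hT

end Pool.Agent.D0H70.GF
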